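import Pool.Agent.U707.PT.Stm

/-!
# Project PT, package ROOT: characteristic polynomials are determined by the traces of the powers
-/

set_option autoImplicit false

open Polynomial Module

namespace Pool.Agent.U399.PT

section mat

variable {K : Type} [Field K] [IsAlgClosed K] {n : Type} [Fintype n] [DecidableEq n]

theorem card_roots' (A : Matrix n n K) : A.charpoly.roots.card = Fintype.card n := by
  rw [← Matrix.charpoly_natDegree_eq_dim A]
  exact (Polynomial.splits_iff_card_roots.1 (IsAlgClosed.splits A.charpoly))

omit [IsAlgClosed K] in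
theorem prod_flip (s : Multiset K) (μ : K) :
    (-1) ^ s.card * (s.map fun l => μ - l).prod = (s.map fun l => l - μ).prod := by
  induction s using Multiset.induction_on with
  | empty => simp
  | cons a s ih =>
    rw [Multiset.card_cons, Multiset.map_cons, Multiset.map_cons, Multiset.prod_cons,
      Multiset.prod_cons, ← ih]
    ring

theorem det_lin (A : Matrix n n K) (μ : K) :
    (aeval A (X - C μ)).det = (A.charpoly.roots.map fun l => (X - C μ : K[X]).eval l).prod := by
  have h1 : aeval A (X - C μ) = -(Matrix.scalar n μ - A) := by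
    rw [map_sub, aeval_X, aeval_C, neg_sub]
    rfl
  rw [h1, Matrix.det_neg, ← Matrix.eval_charpoly,
    (IsAlgClosed.splits A.charpoly).eval_eq_prod_roots_of_monic A.charpoly_monic μ,
    ← card_roots' A]
  simp only [eval_sub, eval_X, eval_C]
  exact prod_flip _ _

omit [IsAlgClosed K] in
theorem det_mul' (A : Matrix n n K) (f g : K[X])
    (hf : (aeval A f).det = (A.charpoly.roots.map fun l => f.eval l).prod)
    (hg : (aeval A g).det = (A.charpoly.roots.map fun l => g.eval l).prod) :
    (aeval A (f * g)).det = (A.charpoly.roots.map fun l => (f * g).eval l).prod := by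
  rw [map_mul, Matrix.det_mul, hf, hg, ← Multiset.prod_map_mul]
  simp only [eval_mul]

theorem det_monic (A : Matrix n n K) (f : K[X]) (hf : f.Monic) :
    (aeval A f).det = (A.charpoly.roots.map fun l => f.eval l).prod := by
  have h1 : ∀ s : Multiset K, (aeval A (s.map fun a => X - C a).prod).det =
      (A.charpoly.roots.map fun l => ((s.map fun a => X - C a).prod : K[X]).eval l).prod := by
    intro s
    induction s using Multiset.induction_on with
    | empty => simp
    | cons a s ih =>
      rw [Multiset.map_cons, Multiset.prod_cons]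
      exact det_mul' A _ _ (det_lin A a) ih
  have h2 := (IsAlgClosed.splits f).eq_prod_roots_of_monic hf
  rw [h2]
  exact h1 _

theorem charpoly_pow (A : Matrix n n K) (k : ℕ) (hk : k ≠ 0) :
    (A ^ k).charpoly = (A.charpoly.roots.map fun l => X - C (l ^ k)).prod := by
  have hinf : Infinite K := IsAlgClosed.instInfinite
  refine Polynomial.funext fun x => ?_
  have h1 : Matrix.scalar n x - A ^ k = -(aeval A (X ^ k - C x)) := by
    rw [map_sub, map_pow, aeval_X, aeval_C, neg_sub]
    rfl
  rw [Matrix.eval_charpoly, h1, Matrix.det_neg, det_monic A _ (monic_X_pow_sub_C x hk),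
    ← card_roots' A, eval_multiset_prod, Multiset.map_map]
  simp only [Function.comp_def, eval_sub, eval_X, eval_C, eval_pow]
  have h2 := prod_flip (A.charpoly.roots.map fun l => l ^ k) x
  rw [Multiset.card_map, Multiset.map_map, Multiset.map_map] at h2
  simp only [Function.comp_def] at h2
  rw [← h2, ← mul_assoc, ← pow_add, ← two_mul, pow_mul]
  norm_num

theorem trace_pow (A : Matrix n n K) (k : ℕ) :
    (A ^ k).trace = (A.charpoly.roots.map fun l => l ^ k).sum := by
  rcases Nat.eq_zero_or_pos k with hk | hk
  · subst hk
    simp only [pow_zero, Multiset.map_const', Multiset.sum_replicate, card_roots',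
      Matrix.trace_one, nsmul_eq_mul, mul_one]
  · rw [Matrix.trace_eq_sum_roots_charpoly, charpoly_pow A k hk.ne']
    have h1 : (A.charpoly.roots.map fun l => X - C (l ^ k)).prod =
        ((A.charpoly.roots.map fun l => l ^ k).map fun a => X - C a).prod := by
      rw [Multiset.map_map]
      rfl
    rw [h1, Polynomial.roots_multiset_prod_X_sub_C]

omit [IsAlgClosed K] in
theorem sum_eval (s : Multiset K) (f : K[X]) :
    (s.map fun l => f.eval l).sum =
      ∑ k ∈ Finset.range (f.natDegree + 1), f.coeff k * (s.map fun l => l ^ k).sum := by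
  induction s using Multiset.induction_on with
  | empty => simp
  | cons a s ih =>
    rw [Multiset.map_cons, Multiset.sum_cons, ih, Polynomial.eval_eq_sum_range,
      ← Finset.sum_add_distrib]
    refine Finset.sum_congr rfl fun k _ => ?_
    rw [Multiset.map_cons, Multiset.sum_cons, mul_add]

omit [IsAlgClosed K] in
theorem sum_single [DecidableEq K] (s : Multiset K) (μ : K) (f : K → K)
    (h : ∀ l ∈ s, l ≠ μ → f l = 0) :
    (s.map f).sum = s.count μ * f μ := by
  induction s using Multiset.induction_on with
  | empty => simp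
  | cons a s ih =>
    rw [Multiset.map_cons, Multiset.sum_cons, ih fun l hl => h l (Multiset.mem_cons_of_mem hl)]
    by_cases ha : a = μ
    · subst ha
      rw [Multiset.count_cons_self]
      push_cast
      ring
    · rw [Multiset.count_cons_of_ne (Ne.symm ha), h a (Multiset.mem_cons_self a s) ha, zero_add]

omit [IsAlgClosed K] in
theorem multiset_eq [CharZero K] (s t : Multiset K) (h : ∀ k : ℕ, (s.map fun l => l ^ k).sum =
    (t.map fun l => l ^ k).sum) : s = t := by
  classical
  have hf : ∀ f : K[X], (s.map fun l => f.eval l).sum = (t.map fun l => f.eval l).sum := by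
    intro f
    rw [sum_eval, sum_eval]
    simp only [h]
  ext μ
  obtain ⟨S, hS⟩ : ∃ S : Finset K, S = (s + t).toFinset.erase μ := ⟨_, rfl⟩
  obtain ⟨f, hfdef⟩ : ∃ f : K[X], f = ∏ a ∈ S, (X - C a) := ⟨_, rfl⟩
  have hμ : f.eval μ ≠ 0 := by
    rw [hfdef, eval_prod, Finset.prod_ne_zero_iff]
    intro a ha
    rw [hS, Finset.mem_erase] at ha
    rw [eval_sub, eval_X, eval_C, sub_ne_zero]
    exact ha.1.symm
  have h0 : ∀ l, l ∈ s + t → l ≠ μ → f.eval l = 0 := by
    intro l hl hne
    rw [hfdef, eval_prod]
    refine Finset.prod_eq_zero (i := l) ?_ ?_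
    · rw [hS, Finset.mem_erase, Multiset.mem_toFinset]
      exact ⟨hne, hl⟩
    · rw [eval_sub, eval_X, eval_C, sub_self]
  have h1 := hf f
  rw [sum_single s μ (fun l => f.eval l) fun l hl => h0 l (Multiset.mem_add.2 (Or.inl hl)),
    sum_single t μ (fun l => f.eval l) fun l hl => h0 l (Multiset.mem_add.2 (Or.inr hl))] at h1
  exact_mod_cast mul_right_cancel₀ hμ h1

end mat

/-- the roots of the characteristic polynomial in the algebraic closure -/
lemma exists_roots (E : Type) [Field E] [CharZero E] (V : Type) [AddCommGroup V] [Module E V]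
    [FiniteDimensional E V] (T : Module.End E V) :
    ∃ s : Multiset (AlgebraicClosure E),
      (∀ k : ℕ, (s.map fun l => l ^ k).sum =
        algebraMap E (AlgebraicClosure E) (LinearMap.trace E _ (T ^ k))) ∧
      T.charpoly.map (algebraMap E (AlgebraicClosure E)) = (s.map fun a => X - C a).prod := by
  set b := Module.finBasis E V
  set A := LinearMap.toMatrix b b T with hA
  set A' := A.map (algebraMap E (AlgebraicClosure E)) with hA'
  refine ⟨A'.charpoly.roots, fun k => ?_, ?_⟩
  · rw [← trace_pow, hA', ← Matrix.map_pow, ← AddMonoidHom.map_trace,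
      LinearMap.trace_eq_matrix_trace E b, LinearMap.toMatrix_pow]
  · rw [← LinearMap.charpoly_toMatrix T b, ← Matrix.charpoly_map]
    exact (IsAlgClosed.splits A'.charpoly).eq_prod_roots_of_monic (Matrix.charpoly_monic _)

lemma reverse_pow' {E : Type} [Field E] (p : E[X]) (k : ℕ) : (p ^ k).reverse = p.reverse ^ k := by
  induction k with
  | zero => rw [pow_zero, pow_zero, ← C_1, reverse_C]
  | succ k ih => rw [pow_succ, pow_succ, reverse_mul_of_domain, ih]

lemma reverse_prod {E : Type} [Field E] {ι : Type} (s : Finset ι) (p : ι → E[X]) (k : ι → ℕ) :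
    (∏ i ∈ s, p i ^ k i).reverse = ∏ i ∈ s, (p i).reverse ^ k i := by
  classical
  induction s using Finset.induction_on with
  | empty => rw [Finset.prod_empty, Finset.prod_empty, ← C_1, reverse_C]
  | insert a s ha ih =>
    rw [Finset.prod_insert ha, Finset.prod_insert ha, reverse_mul_of_domain, ih, reverse_pow']

theorem t_ROOT : Pool.Agent.U707.PT.S_ROOT := by
  intro E _ _ ι _ V _ _ _ T b h
  classical
  choose s hs hc using fun i => exists_roots E (V i) (T i)
  -- power sums as additive homomorphisms
  have hp : ∀ (k : ℕ) (m : ι → ℕ), ((∑ i, m i • s i).map fun l => l ^ k).sum =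
      ∑ i, (m i : AlgebraicClosure E) * ((s i).map fun l => l ^ k).sum := by
    intro k m
    have := map_sum ((Multiset.sumAddMonoidHom (M := AlgebraicClosure E)).comp
      (Multiset.mapAddMonoidHom fun l => l ^ k)) (fun i => m i • s i) Finset.univ
    simp only [AddMonoidHom.comp_apply, Multiset.coe_sumAddMonoidHom,
      Multiset.coe_mapAddMonoidHom] at this
    rw [this]
    refine Finset.sum_congr rfl fun i _ => ?_
    rw [Multiset.map_nsmul, Multiset.sum_nsmul, nsmul_eq_mul]
  have hq : ∀ (m : ι → ℕ), ((∑ i, m i • s i).map fun a => X - C a).prod =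
      ∏ i, ((s i).map fun a => (X - C a : (AlgebraicClosure E)[X])).prod ^ m i := by
    intro m
    have hg : ∀ t : Finset ι, ((∑ i ∈ t, m i • s i).map fun a => X - C a).prod =
      ∏ i ∈ t, ((s i).map fun a => (X - C a : (AlgebraicClosure E)[X])).prod ^ m i := by
      intro t
      induction t using Finset.induction_on with
      | empty => simp
      | insert a t ha ih =>
        rw [Finset.sum_insert ha, Finset.prod_insert ha, Multiset.map_add, Multiset.prod_add, ih,
          Multiset.map_nsmul, Multiset.prod_nsmul]
    exact hg _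
  have heq : (∑ i, (b i).toNat • s i) = ∑ i, (-b i).toNat • s i := by
    refine multiset_eq _ _ fun k => ?_
    rw [hp, hp, ← sub_eq_zero, ← Finset.sum_sub_distrib]
    have h2 := congrArg (algebraMap E (AlgebraicClosure E)) (h k)
    rw [map_sum, map_zero] at h2
    rw [← h2]
    refine Finset.sum_congr rfl fun i _ => ?_
    rw [hs, map_mul, ← sub_mul]
    congr 1
    rw [map_intCast]
    have h3 : ((b i).toNat : ℤ) - ((-b i).toNat : ℤ) = b i := by
      rcases le_total 0 (b i) with hb | hb
      · rw [Int.toNat_of_nonneg hb, Int.toNat_of_nonpos (by omega)]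
        simp
      · rw [Int.toNat_of_nonpos hb, Int.toNat_of_nonneg (by omega)]
        simp
    exact_mod_cast congrArg (Int.cast : ℤ → AlgebraicClosure E) h3
  have hpoly : ∏ i, (T i).charpoly ^ (b i).toNat = ∏ i, (T i).charpoly ^ (-b i).toNat := by
    apply Polynomial.map_injective _ (algebraMap E (AlgebraicClosure E)).injective
    rw [Polynomial.map_prod, Polynomial.map_prod]
    simp only [Polynomial.map_pow, hc]
    rw [← hq, ← hq, heq]
  have := congrArg Polynomial.reverse hpoly
  rwa [reverse_prod, reverse_prod] at this

end Pool.Agent.U399.PT
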